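import Pool.Agent.Helper3K9.EW.Main

/-!
# Local Euler factors at places of arbitrary reduction

Let `K` be a number field (for example `ℚ`) and let `V_ℓ` and `W_ℓ`, for all primes `ℓ`, be the `ℓ`-adic realisations,
in degrees of the same weight `w`, of two motives `M` and `N` over `K`, as in the starting file `EulerFactorTransfer`: at
the places `v` outside a finite set the difference `a_v` of the traces of the geometric Frobenius elements on `V_ℓ` and
`W_ℓ` is a rational number which does not depend on `ℓ`, and `a_v ^ 2 ≤ C N(v) ^ w`; and for a positive integer `d` the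
number `d a_v ^ 2` is an integral multiple of `N(v) ^ w` for `v` in a set of upper density larger than
`1 - 1 / (n ^ 2 + m ^ 2)` (for example because the traces are equal at most places, or congruent modulo
`N(v) ^ (w / 2)`). Nothing is assumed about `V_ℓ` at the places of bad reduction, and `V_ℓ` is not assumed to be
semisimple.

Suppose now that `W_ℓ` is semisimple, and that at the place `v` the family `W` has the following two properties, which
are known at **every** place `v`, of arbitrary reduction, for the cohomology of abelian varieties and of curves, and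
for their tensor constructions (`W_ℓ` is semisimple for them by Faltings): the characteristic polynomials of the elements
of the Weil group at `v` are rational and independent of `ℓ` (`CompatibleAt`), and the weight-monodromy conjecture
(`WeightMonodromyAt`). Then `V` has the same two properties at `v`, and the local factor `det (1 - F_v T | V_ℓ ^ I_v)`
of `M` is a polynomial with rational coefficients which does not depend on `ℓ`.

So if `N` is the cohomology of an abelian variety, the local factors of `M` are independent of `ℓ` at all places. In the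
starting file this was proved at the places where `N` has good reduction; there `V_ℓ` is potentially unramified. Here the
monodromy operators are not zero.

Part (1) is the purely local statement that a family with the two properties has local factors which are independent
of `ℓ` (a well known principle). It is used for `V` in part (2).

Proof of part (2). By the starting files the function `tr V_ℓ - tr W_ℓ` is, up to a Tate twist, constant on the cosets of
an open normal subgroup `U`. Let `x` be an eigenvector of a Frobenius element in `V_ℓ ⊗ ℂ`; the simple quotients of the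
`U`-module generated by `x` are isomorphic to submodules of the sum of `W_ℓ ⊗ ℂ` and of a Tate twist: the ideal of the
group algebra which annihilates the latter acts on `V` by nilpotent maps. So the weight of `x` is bounded by the
weight-monodromy property of `W`. Part (1): over the complex numbers, for every embedding of `ℚ_ℓ`, the two properties
imply that the monodromy filtration is the weight filtration (dimension count with the determinant); the trace of a
Frobenius element on the kernel of the monodromy is a function of its characteristic polynomial only, so it is fixed by all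
automorphisms of `ℂ`.
-/

set_option autoImplicit false

namespace Pool.Agent.Results.MP_a3c811_ag.ArbitraryReduction

open NumberField IsDedekindDomain Filter Matrix Polynomial

/-- the absolute Galois group of the field `K`, with the Krull topology -/
abbrev AbsGal (K : Type) [Field K] : Type := Gal(AlgebraicClosure K/K)

section
variable {K : Type} [Field K]

/-- `g` belongs to the inertia group at the ideal `Q` of the ring of all algebraic integers. -/
def InInertia (Q : Ideal (𝓞 (AlgebraicClosure K))) (g : AbsGal K) : Prop :=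
  ∀ x : 𝓞 (AlgebraicClosure K), g • x - x ∈ Q

/-- `g` acts as `x ↦ x ^ q` modulo `Q`. If `q` is the `k`-th power of the number `N(v)` of elements of the residue field of
the place `v` below `Q`, these are the elements of the Weil group at `Q` of degree `k`: for `k = 1` the arithmetic
Frobenius elements, for `k = 0` the inertia group. -/
def FrobeniusAt (Q : Ideal (𝓞 (AlgebraicClosure K))) (q : ℕ) (g : AbsGal K) : Prop :=
  ∀ x : 𝓞 (AlgebraicClosure K), g • x - x ^ q ∈ Q

/-- `Q` is a maximal ideal of the ring of all algebraic integers which lies above the finite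
place `v` of `K`. -/
def LiesAbove [NumberField K] (v : HeightOneSpectrum (𝓞 K))
    (Q : Ideal (𝓞 (AlgebraicClosure K))) : Prop :=
  Q.IsMaximal ∧ Q.comap (algebraMap (𝓞 K) (𝓞 (AlgebraicClosure K))) = v.asIdeal

/-- the matrix of `g` -/
noncomputable def mat {F : Type} [Field F] {n : ℕ} (ρ : AbsGal K →* GL (Fin n) F) (g : AbsGal K) :
    Matrix (Fin n) (Fin n) F :=
  (ρ g : GL (Fin n) F)

/-- every stable subspace has a stable complement -/
def Semisimple {F : Type} [Field F] {n : ℕ} (ρ : AbsGal K →* GL (Fin n) F) : Prop :=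
  ∀ A : Submodule F (Fin n → F), (∀ g, ∀ x ∈ A, mat ρ g *ᵥ x ∈ A) →
    ∃ B : Submodule F (Fin n → F), (∀ g, ∀ x ∈ B, mat ρ g *ᵥ x ∈ B) ∧ IsCompl A B

/-- the vectors which are fixed by the inertia group at `Q` -/
def invariants {F : Type} [Field F] {n : ℕ} (ρ : AbsGal K →* GL (Fin n) F)
    (Q : Ideal (𝓞 (AlgebraicClosure K))) : Submodule F (Fin n → F) where
  carrier := {x | ∀ g, InInertia Q g → mat ρ g *ᵥ x = x}
  add_mem' := by
    intro x y hx hy g hg
    rw [Matrix.mulVec_add, hx g hg, hy g hg]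
  zero_mem' := by
    intro g _
    rw [Matrix.mulVec_zero]
  smul_mem' := by
    intro c x hx g hg
    rw [Matrix.mulVec_smul, hx g hg]

/-- `f` is the polynomial `det (1 - g T)` of `g` on the invariants of the inertia group at `Q`: if
`A` is the matrix of `g` with respect to a basis `b` of the invariants then `f = det (1 - A T)`. -/
def IsLocalFactor {F : Type} [Field F] {n : ℕ} (ρ : AbsGal K →* GL (Fin n) F)
    (Q : Ideal (𝓞 (AlgebraicClosure K))) (g : AbsGal K) (f : F[X]) : Prop :=
  ∃ (m : ℕ) (b : Module.Basis (Fin m) F (invariants ρ Q)) (A : Matrix (Fin m) (Fin m) F),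
    (∀ j, mat ρ g *ᵥ (b j : Fin n → F) = ∑ i, A i j • (b i : Fin n → F)) ∧
    f = (1 - (X : F[X]) • A.map C).det

variable [NumberField K] {n : ℕ}

/-- Compatibility of the family at `v`: the characteristic polynomial of the inverse of every element `g` of the Weil
group of degree `k ≥ 0` is a rational polynomial `h` which does not depend on `ℓ`, and the determinant has weight `w n`:
`h(0) ^ 2 = N(v) ^ (w n k)`. -/
def CompatibleAt (V : ∀ (ℓ : ℕ) [Fact ℓ.Prime], AbsGal K →* GL (Fin n) ℚ_[ℓ]) (w : ℤ)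
    (v : HeightOneSpectrum (𝓞 K)) : Prop :=
  ∀ Q, LiesAbove v Q → ∀ (k : ℕ) (g : AbsGal K), FrobeniusAt Q (Ideal.absNorm v.asIdeal ^ k) g →
    ∃ h : ℚ[X], (h.coeff 0) ^ 2 = (Ideal.absNorm v.asIdeal : ℚ) ^ (w * n * k) ∧
      ∀ (ℓ : ℕ) [Fact ℓ.Prime], (ℓ : 𝓞 K) ∉ v.asIdeal →
        (mat (V ℓ) g⁻¹).charpoly = h.map (algebraMap ℚ ℚ_[ℓ])

/-- The weight-monodromy property of the family at `v`, for all embeddings `e` of `ℚ_ℓ` into `ℂ`: let `x` be an
eigenvector, with eigenvalue `z`, of the inverse of an element of the Weil group of degree `k > 0`, and suppose that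
`(τ - 1) ^ (i + 1)` kills `x` for all the elements `τ` of the inertia group which act unipotently; then
`‖z‖ ^ 2 = N(v) ^ (k j)` for an integral weight `j ≤ w + i`. -/
def WeightMonodromyAt (V : ∀ (ℓ : ℕ) [Fact ℓ.Prime], AbsGal K →* GL (Fin n) ℚ_[ℓ]) (w : ℤ)
    (v : HeightOneSpectrum (𝓞 K)) : Prop :=
  ∀ Q, LiesAbove v Q → ∀ (ℓ : ℕ) [Fact ℓ.Prime], (ℓ : 𝓞 K) ∉ v.asIdeal → ∀ (e : ℚ_[ℓ] →+* ℂ)
    (k : ℕ) (g : AbsGal K), 0 < k → FrobeniusAt Q (Ideal.absNorm v.asIdeal ^ k) g →
    ∀ (z : ℂ) (x : Fin n → ℂ) (i : ℕ), x ≠ 0 → (mat (V ℓ) g⁻¹).map e *ᵥ x = z • x →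
      (∀ τ, InInertia Q τ → IsNilpotent (mat (V ℓ) τ - 1) →
        (((mat (V ℓ) τ).map e - 1) ^ (i + 1)) *ᵥ x = 0) →
      ∃ j : ℤ, j ≤ w + i ∧ ‖z‖ ^ 2 = ((Ideal.absNorm v.asIdeal : ℝ) ^ k) ^ j

/-- The local factors at `v` (of a geometric Frobenius element `g`) are rational and independent of `ℓ`. -/
def IndependentAt (V : ∀ (ℓ : ℕ) [Fact ℓ.Prime], AbsGal K →* GL (Fin n) ℚ_[ℓ])
    (v : HeightOneSpectrum (𝓞 K)) : Prop :=
  ∀ Q, LiesAbove v Q → ∀ g, FrobeniusAt Q (Ideal.absNorm v.asIdeal) g⁻¹ →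
    ∃ P : ℚ[X], ∀ (ℓ : ℕ) [Fact ℓ.Prime], (ℓ : 𝓞 K) ∉ v.asIdeal → ∀ f : ℚ_[ℓ][X],
      IsLocalFactor (V ℓ) Q g f ↔ f = P.map (algebraMap ℚ ℚ_[ℓ])

end

/-- **Local Euler factors at places of arbitrary reduction.** -/
theorem result {K : Type} [Field K] [NumberField K] {n : ℕ}
    (V : ∀ (ℓ : ℕ) [Fact ℓ.Prime], AbsGal K →* GL (Fin n) ℚ_[ℓ])
    (hV : ∀ (ℓ : ℕ) [Fact ℓ.Prime], Continuous (V ℓ)) (w : ℤ) :
    -- (1) the local statement
    (∀ v, CompatibleAt V w v → WeightMonodromyAt V w v → IndependentAt V v) ∧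
    -- (2) transfer from the family `W`
    ∀ (m : ℕ) (W : ∀ (ℓ : ℕ) [Fact ℓ.Prime], AbsGal K →* GL (Fin m) ℚ_[ℓ]),
    (∀ (ℓ : ℕ) [Fact ℓ.Prime], Continuous (W ℓ)) → (∀ (ℓ : ℕ) [Fact ℓ.Prime], Semisimple (W ℓ)) →
    -- the exceptional places, and the differences of the traces at the other places
    ∀ (B : Set (HeightOneSpectrum (𝓞 K))), B.Finite → ∀ a : HeightOneSpectrum (𝓞 K) → ℚ,
    (∀ (ℓ : ℕ) [Fact ℓ.Prime], ∀ v, v ∉ B → (ℓ : 𝓞 K) ∉ v.asIdeal → ∀ Q, LiesAbove v Q →
      ∀ g, FrobeniusAt Q (Ideal.absNorm v.asIdeal) g →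
        (mat (V ℓ) g⁻¹).trace - (mat (W ℓ) g⁻¹).trace = (a v : ℚ_[ℓ])) →
    ∀ C : ℝ, (∀ v, v ∉ B → (a v : ℝ) ^ 2 ≤ C * (Ideal.absNorm v.asIdeal : ℝ) ^ w) →
    -- most differences are divisible, up to a bounded denominator
    ∀ d : ℕ, 0 < d → ∀ θ : ℝ, θ * ((n : ℝ) ^ 2 + (m : ℝ) ^ 2) < 1 →
    (∃ᶠ x : ℕ in atTop, ({v : HeightOneSpectrum (𝓞 K) | Ideal.absNorm v.asIdeal ≤ x ∧
      ¬ ∃ c : ℤ, (d : ℚ) * a v ^ 2 = (Ideal.absNorm v.asIdeal : ℚ) ^ w * c}.ncard : ℝ) ≤
        θ * Nat.primeCounting x) →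
    ∀ v, CompatibleAt W w v → WeightMonodromyAt W w v →
      CompatibleAt V w v ∧ WeightMonodromyAt V w v ∧ IndependentAt V v := by
  have hq : ∀ v : HeightOneSpectrum (𝓞 K), 2 ≤ Ideal.absNorm v.asIdeal := by
    intro v
    have h0 : Ideal.absNorm v.asIdeal ≠ 0 := fun h0 => v.ne_bot (Ideal.absNorm_eq_zero_iff.1 h0)
    have h1 : Ideal.absNorm v.asIdeal ≠ 1 := fun h1 =>
      v.isPrime.ne_top (Ideal.absNorm_eq_one_iff.1 h1)
    omega
  have hQℓ : ∀ (v : HeightOneSpectrum (𝓞 K)) (Q : Ideal (𝓞 (AlgebraicClosure K))), LiesAbove v Q →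
      ∀ ℓ : ℕ, (ℓ : 𝓞 (AlgebraicClosure K)) ∈ Q ↔ (ℓ : 𝓞 K) ∈ v.asIdeal := by
    intro v Q hQ ℓ
    rw [← hQ.2, Ideal.mem_comap, map_natCast]
  have hcast : ∀ (L : Type) [Field L] [CharZero L] (f : ℚ →+* L), f = Rat.castHom L :=
    fun L _ _ f => Subsingleton.elim _ _
  have c1 : ∀ {r : ℕ} (U : ∀ (ℓ : ℕ) [Fact ℓ.Prime], AbsGal K →* GL (Fin r) ℚ_[ℓ]) (v),
      CompatibleAt U w v ↔ ∀ Q, LiesAbove v Q →
        Pool.Agent.Helper3K9.EW.WM1 U w Q (Ideal.absNorm v.asIdeal) := by
    intro r U v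
    refine forall_congr' fun Q => forall_congr' fun hQ => forall_congr' fun k =>
      forall_congr' fun g => forall_congr' fun hg => exists_congr fun h => ?_
    constructor
    · rintro ⟨h1, h2⟩
      refine ⟨h1, fun ℓ _ hℓ => ?_⟩
      rw [← hcast _ (algebraMap ℚ ℚ_[ℓ])]
      exact h2 ℓ fun h' => hℓ ((hQℓ v Q hQ ℓ).2 h')
    · rintro ⟨h1, h2⟩
      refine ⟨h1, fun ℓ _ hℓ => ?_⟩
      rw [hcast _ (algebraMap ℚ ℚ_[ℓ])]
      exact h2 ℓ fun h' => hℓ ((hQℓ v Q hQ ℓ).1 h')
  have c2 : ∀ {r : ℕ} (U : ∀ (ℓ : ℕ) [Fact ℓ.Prime], AbsGal K →* GL (Fin r) ℚ_[ℓ]) (v),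
      WeightMonodromyAt U w v ↔ ∀ Q, LiesAbove v Q →
        Pool.Agent.Helper3K9.EW.WM2 U w Q (Ideal.absNorm v.asIdeal) := by
    intro r U v
    refine forall_congr' fun Q => forall_congr' fun hQ => forall_congr' fun ℓ =>
      forall_congr' fun _ => ?_
    constructor
    · intro h1 hℓ
      exact h1 fun h' => hℓ ((hQℓ v Q hQ ℓ).2 h')
    · intro h1 hℓ
      exact h1 fun h' => hℓ ((hQℓ v Q hQ ℓ).1 h')
  have L : ∀ v, CompatibleAt V w v → WeightMonodromyAt V w v → IndependentAt V v := by
    intro v h1 h2 Q hQ g hg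
    exact Pool.Agent.Helper3K9.EW.local_ Pool.Agent.Helper3K9.EW.finAll V hV w v Q hQ.1 hQ.2
      ((c1 V v).1 h1 Q hQ) ((c2 V v).1 h2 Q hQ) g hg
  refine ⟨L, ?_⟩
  intro m W hW hss B hB a htr C hC d hd θ hθ hdiv v h1 h2
  have hcl := Pool.Agent.Helper3K9.EW.close_ V hV W hW w B hB a (by
    rintro ℓ _ v hv hℓ g ⟨Q, hQ, hQv, hg⟩
    exact htr ℓ v hv hℓ Q ⟨hQ, hQv⟩ g hg) C hC d hd θ hθ hdiv
  have h3 : CompatibleAt V w v := (c1 V v).2 fun Q hQ =>
    Pool.Agent.Helper3K9.EW.chp K n m V W w hcl Q hQ.1 _ (hq v) ((c1 W v).1 h1 Q hQ)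
  have h4 : WeightMonodromyAt V w v := (c2 V v).2 fun Q hQ =>
    Pool.Agent.Helper3K9.EW.wmvAll K n m V W w hcl (fun ℓ _ => hss ℓ) Q hQ.1 _ (hq v)
      ((c2 W v).1 h2 Q hQ)
  exact ⟨h3, h4, L v h3 h4⟩

end Pool.Agent.Results.MP_a3c811_ag.ArbitraryReduction
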