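import Pool.Agent.Helper51K9.LI.Defs
import Pool.Agent.Helper51K9.LI.Br

/-!
# The part of low weights of the local Euler factors of motives

Let `K` be a number field (for example `ℚ`), `v` a finite place, `q = N(v)`, and `M = (X, π, r)` a Chow motive over `K`.
Nothing is assumed about the reduction of `X` at `v`, and the weight-monodromy conjecture is not used. For `l` not below
`v` let `V_l = π^* H^n(X, ℚ_l(r))`, `n = i + 2 r`, be the realisation in degree `i`. We prove

`det (1 - T Frob | V_l ^ I) = P_0 P_1 R_l`

where `P_0`, `P_1` are polynomials over `ℚ` which do not depend on `l`, all the inverse roots of `P_0`, resp. `P_1`, are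
pure of weight `w₀ = - 2 r`, resp. `w₀ + 1` (the two lowest possible weights of `V_l`), and all the inverse roots of `R_l`
have weights `≥ w₀ + 2`. Also, for all the elements `g` of the Weil group at `v` of degree `≥ 0`, `det (1 - T g)` on the
two lowest graded pieces of the weight filtration is rational and independent of `l` (`LowFactors`).

The published facts on which this rests are the hypotheses of the theorem:

* (de Jong) There are a finite Galois extension `K'` of the completion of `K` at `v`, a strictly semistable scheme `X'` over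
  its ring of integers and an alteration `f` from its generic fibre to `X`; `V_l` is a direct summand of `H^n(X')(r)` by
  means of `f^*` and of `π^* f_* / deg f`.
* (Rapoport and Zink) In the weights `w = 0` and `w = 1` (before the Tate twist) the terms `E_1` of the weight spectral
  sequence of `X'` are the `H^w(Y^(k))`, `k ≥ 0`, where `Y^(k)` is the disjoint union of the intersections of `k + 1`
  components of the geometric special fibre; it degenerates in `E_2`. So the lowest graded piece `U 0 l` and the next one
  `U 1 l` of `V_l` are direct summands of the cohomology of complexes (`Computes`), the second step `W l` of the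
  weight filtration is an extension of `U 1 l` by `U 0 l` (`IsFiltered`), and the inertia group of `K'` acts
  trivially on `W l`, as `N` lowers the weights by `2` (`PotentiallyTrivial`).
* (T. Saito) For `g` in the Weil group of `K`, of degree `≥ 0`, the composition of `g` with the correspondences `f^*`,
  `π^* f_* / deg f` acts on the complexes by an algebraic correspondence `c g` between the strata which commutes with
  the differentials (`IsComplex`, `Computes`). For degree `k > 0` the action of `g` on the cohomology of the strata is that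
  of the `k`-th power of the relative Frobenius morphism.
* (Weil) The correspondences between smooth projective varieties over a finite field act on `H^1` through the semisimple
  ring `D 1` of endomorphisms up to isogeny of an abelian variety, with rational characteristic polynomials which are
  independent of `l` (`Rational`); on `H^0` they act through a matrix ring `D 0` over `ℚ`.
* (Deligne) The weights of the Frobenius elements (`HasLowWeights`).

Proof. Semisimple rings are von Neumann regular: so the cocycles and the coboundaries are images of idempotent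
correspondences, which do not depend on `l`. Hence the traces of correspondences on the cohomology of the
complexes are rational and independent of `l`, and this can be applied to the product of `c F` and of the average of
the `c g` over the cosets of the inertia group of `K'` in the inertia group.
-/

set_option autoImplicit false

namespace Pool.Agent.Results.MP_a3c811_ag.LowWeightFactors

open NumberField IsDedekindDomain Polynomial Pool.Agent.Helper51K9.LI.M

/-- the absolute Galois group of the field `K` -/
abbrev AbsGal (K : Type) [Field K] : Type := Gal(AlgebraicClosure K/K)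

section
variable {K : Type} [Field K]

/-- `g` acts as `x ↦ x ^ q` modulo the ideal `Q` of the ring of all algebraic integers. -/
def FrobeniusAt (Q : Ideal (𝓞 (AlgebraicClosure K))) (q : ℕ) (g : AbsGal K) : Prop :=
  ∀ x : 𝓞 (AlgebraicClosure K), g • x - x ^ q ∈ Q

/-- the inertia group at `Q` -/
def inertia (Q : Ideal (𝓞 (AlgebraicClosure K))) : Set (AbsGal K) := {g | FrobeniusAt Q 1 g}

/-- the elements `g` of the Weil group at `Q` of degree `k ≥ 0`: `g⁻¹` acts as `x ↦ x ^ (q ^ k)` -/
def weil (Q : Ideal (𝓞 (AlgebraicClosure K))) (q : ℕ) : Set (AbsGal K) :=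
  {g | ∃ k : ℕ, FrobeniusAt Q (q ^ k) g⁻¹}

/-- `Q` is a maximal ideal of the ring of all algebraic integers which lies above the finite place `v` of `K`. -/
def LiesAbove [NumberField K] (v : HeightOneSpectrum (𝓞 K))
    (Q : Ideal (𝓞 (AlgebraicClosure K))) : Prop :=
  Q.IsMaximal ∧ Q.comap (algebraMap (𝓞 K) (𝓞 (AlgebraicClosure K))) = v.asIdeal

/-- the geometric Frobenius elements at `Q` -/
def frobenii (Q : Ideal (𝓞 (AlgebraicClosure K))) (q : ℕ) : Set (AbsGal K) :=
  {g | FrobeniusAt Q q g⁻¹}

theorem frob_mul {Q : Ideal (𝓞 (AlgebraicClosure K))} {q r : ℕ} {g h : AbsGal K}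
    (hg : FrobeniusAt Q q g) (hh : FrobeniusAt Q r h) : FrobeniusAt Q (q * r) (h * g) := by
  intro x
  have h1 : h • (g • x) - (g • x) ^ r ∈ Q := hh _
  have h2 : (g • x) ^ r - (x ^ q) ^ r ∈ Q :=
    Ideal.mem_of_dvd Q (sub_dvd_pow_sub_pow _ _ r) (hg x)
  have h3 : (h * g) • x - x ^ (q * r) =
      (h • (g • x) - (g • x) ^ r) + ((g • x) ^ r - (x ^ q) ^ r) := by
    rw [mul_smul, pow_mul]
    ring
  rw [h3]
  exact Q.add_mem h1 h2

theorem frob_inv {Q : Ideal (𝓞 (AlgebraicClosure K))} {g : AbsGal K}
    (hg : FrobeniusAt Q 1 g) : FrobeniusAt Q 1 g⁻¹ := by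
  intro x
  have h1 := hg (g⁻¹ • x)
  rw [smul_inv_smul, pow_one] at h1
  rw [pow_one, ← neg_sub]
  exact Q.neg_mem h1

theorem frob_conj {Q : Ideal (𝓞 (AlgebraicClosure K))} {q : ℕ} (hq : q ≠ 0) {F g : AbsGal K}
    (hF : FrobeniusAt Q q F⁻¹) (hg : FrobeniusAt Q 1 g) : FrobeniusAt Q 1 (F⁻¹ * g * F) := by
  intro x
  have h1 : g • (F • x) - F • x ∈ Q := by simpa using hg (F • x)
  have h2 : F⁻¹ • (g • (F • x) - F • x) ∈ Q := by
    have h3 := hF (g • (F • x) - F • x)
    have h4 := Q.add_mem h3 (Ideal.pow_mem_of_mem Q h1 q (Nat.pos_of_ne_zero hq))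
    rwa [sub_add_cancel] at h4
  rw [smul_sub, inv_smul_smul] at h2
  rw [pow_one, mul_smul, mul_smul]
  exact h2

/-- the inertia group as a subgroup -/
def inertiaGroup (Q : Ideal (𝓞 (AlgebraicClosure K))) : Subgroup (AbsGal K) where
  carrier := inertia Q
  mul_mem' := fun {g h} hg hh => by
    have := frob_mul (q := 1) (r := 1) (show FrobeniusAt Q 1 h from hh) (show FrobeniusAt Q 1 g from hg)
    exact this
  one_mem' := fun x => by simp
  inv_mem' := fun {g} hg => frob_inv hg

theorem weil_mul {Q : Ideal (𝓞 (AlgebraicClosure K))} {q : ℕ} :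
    ∀ g ∈ weil Q q, ∀ h ∈ weil Q q, g * h ∈ weil Q q := by
  rintro g ⟨k, hk⟩ h ⟨m, hm⟩
  refine ⟨k + m, ?_⟩
  rw [mul_inv_rev, pow_add]
  exact frob_mul hk hm

theorem inertia_weil {Q : Ideal (𝓞 (AlgebraicClosure K))} {q : ℕ} :
    ∀ g ∈ inertiaGroup Q, g ∈ weil Q q := by
  intro g hg
  refine ⟨0, ?_⟩
  rw [pow_zero]
  exact frob_inv hg

end

/-- **The part of low weights of the local factors.** -/
theorem result {K : Type} [Field K] [NumberField K] (v : HeightOneSpectrum (𝓞 K))
    (Q : Ideal (𝓞 (AlgebraicClosure K))) (_hQ : LiesAbove v Q) (q : ℕ)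
    (hq : q = Ideal.absNorm v.asIdeal)
    -- the representations `V l = (L l) ^ (n l)` (for example, `L l = ℚ_l` for the primes `l` not below `v`)
    {Λ : Type} (L : Λ → Type) [∀ l, Field (L l)] [∀ l, CharZero (L l)] (n : Λ → ℕ)
    (ρ : ∀ l, AbsGal K → Mat (L l) (n l) (n l)) (hρ : ∀ l, IsRep (ρ l))
    -- the second step `W l = (L l) ^ (r l)` of the weight filtration, an extension of `U 1 l` by `U 0 l`
    (r : Λ → ℕ) (k : Fin 2 → Λ → ℕ) (σ : ∀ l, AbsGal K → Mat (L l) (r l) (r l))
    (act : ∀ w l, AbsGal K → Mat (L l) (k w l) (k w l)) (i : ∀ l, Mat (L l) (n l) (r l))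
    (j : ∀ l, Mat (L l) (r l) (k 0 l)) (p : ∀ l, Mat (L l) (k 1 l) (r l))
    (hW : ∀ l, IsFiltered (weil Q q) (ρ l) (σ l) (act 0 l) (act 1 l) (i l) (j l) (p l))
    -- a subgroup of finite index of the inertia group acts trivially on `W l`
    (hI : PotentiallyTrivial (inertia Q) σ)
    -- the complexes of the cohomology of the strata in degrees `0` and `1`
    (D : Fin 2 → Type) [∀ w, Ring (D w)] [∀ w, Algebra ℚ (D w)] (e a b : ∀ w, D w)
    (c : ∀ w, AbsGal K → D w) (hD : ∀ w, IsComplex (weil Q q) (e w) (a w) (b w) (c w))
    (m : Fin 2 → Λ → ℕ) (T : ∀ w l, D w → Mat (L l) (m w l) (m w l)) (hT : ∀ w, Rational (T w))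
    (α : ∀ w l, Mat (L l) (m w l) (k w l)) (β : ∀ w l, Mat (L l) (k w l) (m w l))
    (hE : ∀ w l, Computes (weil Q q) (e w) (a w) (b w) (c w) (T w l) (act w l) (α w l) (β w l))
    -- the weights of the geometric Frobenius elements on `U w l` and on `V l / W l`
    (w₀ : ℤ) (hF : HasLowWeights (frobenii Q q) q w₀ ρ act i) :
    LowFactors (weil Q q) (inertia Q) (frobenii Q q) q w₀ ρ act := by
  have hq0 : q ≠ 0 := by
    rw [hq, Ne, Ideal.absNorm_eq_zero_iff]
    exact v.ne_bot
  exact bridge (I := inertiaGroup Q) hρ hW hI hD hT hE hF inertia_weil weil_mul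
    (fun F hF => ⟨1, by rw [pow_one]; exact hF⟩) (fun F hF g hg => frob_conj hq0 hF hg)

end Pool.Agent.Results.MP_a3c811_ag.LowWeightFactors
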