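import Pool.Agent.Helper60K9.LF.Main

/-!
# Local factors of motives with abelian strata, for many primes

The local factors `det (1 - T Frob | V^I)` of a motive over a `p`-adic field, in all degrees, for
arbitrary bad reduction. If the strata of a strictly semistable alteration are dominated by products
of abelian varieties, curves, K3 surfaces (and varieties with homological = numerical equivalence),
these polynomials are rational and do not depend on `ℓ` in a set of primes of positive lower density.
The monodromy-weight conjecture is not used (and not known for these motives).

The idea of the proof. For the primes `ℓ` for which homological and numerical equivalence coincide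
on the products of two strata, the ring of the operators on the cohomology of the strata given by
matrices of algebraic correspondences has a nondegenerate rational supertrace (Lefschetz trace
formula), so it is semisimple, hence von Neumann regular: every element `D` has a `C` with
`D C D = D`. As this is an equality of classes of algebraic cycles, it holds for all `ℓ` considered as
soon as it holds for one. So the kernels and images of the differentials of the weight spectral
sequence, and the kernel of the monodromy operator on its second page, are images of idempotent
algebraic cycles, and the traces of the powers of Frobenius (and of the projector of the motive) on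
them are intersection numbers. By the weights the kernel of the monodromy operator on the cohomology
is the sum of the kernels on the graded pieces.
-/

set_option autoImplicit false

universe u

namespace Pool.Agent.Results.MP_a3c811_ag.ManyPrimes

open Pool.Agent.Helper60K9.LF Polynomial
open Pool.Agent.H914 (VarClass CycleOps)
open Pool.Agent.Helper11K9.Dens (HasLowerDensity pairNumber famPoly)

/-- **Local factors of motives with abelian strata.** There is a set `𝓛` of primes of lower density
at least `2 ^ (-n)`, which depends only on the `V j`, such that for all motives `M` whose strata are
dominated by products of the `V j` and of members of a set `𝒴` with D for `ℓ` in `𝓛'`, the local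
factors are rational and independent of `ℓ` in `𝓛 ∩ 𝓛'` (without `V j`: of `ℓ` in `𝓛'`). -/
theorem result {k : Type u} [Field k] {𝒱 : VarClass k} {ops : CycleOps 𝒱} {p : ℕ}
    [Fact p.Prime] (S : Adic ops p) {J : Type} [Fintype J] (V : J → 𝒱.Obj)
    (P : J → ℕ → ℚ[X]) (hP : ∀ j, AreWeilPolynomials (p ^ S.e (V j)) (P j))
    (hsq : ∀ j i, Squarefree (P j i))
    (hV : ∀ ℓ : ℕ, ℓ.Prime → ℓ ≠ p → ∀ j, S.IsGood ℓ (V j) (P j)) :
    ∃ 𝓛 : Set ℕ, HasLowerDensity 𝓛 ((1 / 2) ^ pairNumber (famPoly (fun j => (V j).dim) P)) ∧
      ∀ (𝒴 : Set 𝒱.Obj) (𝓛' : Set ℕ), DFor S 𝒴 𝓛' → ∀ M : MotiveAt S,
        (M.StrataIn (Set.range V ∪ 𝒴) → M.FactorsAgree (𝓛 ∩ 𝓛')) ∧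
        (M.StrataIn 𝒴 → M.FactorsAgree 𝓛') :=
  main_density S V P hP hsq hV

end Pool.Agent.Results.MP_a3c811_ag.ManyPrimes
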