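import Pool.Agent.Helper51K9.OP.Fin

/-!
# Independence of `l`: one prime suffices

Let `K` be a number field, `v` a finite place, `q = N(v)`, and `M = (X, π, r)` a Chow motive over `K`; let
`V_l = π^* H^N(X, ℚ_l(r))`, `N = i + 2 r`, be the realisation in degree `i`, for `l` not below `v`. There is no condition on
the reduction of `X`. By de Jong there are a finite Galois extension `K'` of the completion of `K` at `v` and a strictly
semistable scheme `X'` over the ring of integers of `K'` with an alteration `f` from its generic fibre to `X`. Let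
`Y^(j)` be the disjoint union of the intersections of `j + 1` components of the geometric special fibre (the strata).

Suppose that **for one prime number `l₀`** homological and numerical equivalence agree for algebraic cycles on the products
of two strata. (By Clozel this holds for a set of positive density of `l₀` for varieties over finite fields of
abelian type: dominated by products of curves and abelian varieties. It is trivial for cellular strata.) We prove

(1) for **all** `l` not below `v`, for all the elements `g` of the Weil group at `v` of degree `≥ 0`, the characteristic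
polynomial of `g` on `V_l` (so for each degree `i` separately), and the polynomials `det (1 - T g)` on the graded pieces
of the weight filtration of `V_l`, are rational and independent of `l`;

(2) if the weight-monodromy conjecture holds for `V_l` (all `l`), then the local Euler factor
`det (1 - T Frob | V_l ^ I)` is a rational polynomial which does not depend on `l`, for **all** `l` not below `v`.

Unconditionally only alternating sums over the degrees `i` are known (Ochiai, T. Saito), since the Künneth projectors of
`X` are not known to be algebraic; and homological and numerical equivalence are known to agree, for abelian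
varieties over finite fields, only for a set of primes `l`.

## How the geometry enters

The structure `IsModel` lists published facts:

* `graded`: `V_l` has the weight filtration, with graded pieces `act w` (in a basis adapted to the filtration).
* `complex`, `computes` (de Jong, Rapoport and Zink, T. Saito): the graded piece of weight `w` is a direct summand, by
  means of `f^*` and `π^* f_* / deg f`, of the term `E_2^(N-w, w)` of the weight spectral sequence of `X'`, which is the
  cohomology of the complex `E_1^(p, w) = ⊕ H^(w-2k)(Y^(p+2k))(-k)`. Here `D w` is the ring of matrices of algebraic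
  correspondences between the strata which act on the sum of all these groups (`T w l`), modulo homological
  equivalence for all `l` (`faithful`); `e w` is the projector onto `E_1^(N-w, w)`, and `a w`, `b w` are the
  differentials (restrictions and Gysin maps) which end in and start from `E_1^(N-w, w)`; `c w g` is the correspondence
  by which `g`, composed with `f^*` and `π^* f_* / deg f`, acts (for degree `k` the `k`-th power of the relative
  Frobenius morphism occurs).
* `rational` (Katz and Messing): correspondences over a finite field have rational traces on every `H^j`, independent of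
  `l`, as the Künneth projectors are algebraic.
* `betti`: the sum over `w` of the dimensions of the `E_2^(N-w, w)` is the dimension of `H^N(X', ℚ_l)`, which is a Betti
  number of a variety in characteristic zero, so it is independent of `l`.
* `homEqNum`: homological = numerical equivalence, for `l₀` only. (The trace form on `D w` is nondegenerate for `l₀`, as
  the Künneth projectors of the strata are algebraic.)

`DeterminantWeight` is known for `V_l`: the square of its determinant is a power of the cyclotomic character, by the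
theorem of Chebotarev. `WeightMonodromyAt` is known for example in dimension at most two, for abelian varieties, for
complete intersections (Scholze) and for `p`-adically uniformized varieties (Ito).

## The proof

Let `d` be `a w` or `b w`. For `l₀` the algebra `D w` is semisimple (nondegenerate trace form), so `d u d = d` for `l₀`, with
`u ∈ D w`. For every `l` the correspondence `z = (d u)^2 - d u` is nilpotent, because it is zero for `l₀` and
its characteristic polynomial does not depend on `l`. So the idempotent `d u` can be lifted to a correspondence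
`g ∈ d D w` which is idempotent for all `l`. Its rank is its trace, so the rank of `d` is at least as large for `l`
as for `l₀`. The sum over `w` of the ranks of the `a w` and `b w` does not depend on `l`, because of the Betti numbers.
So all the ranks are the same for all `l`, and the images and the kernels of the differentials are images of
idempotent correspondences which do not depend on `l`. Part (2) is a consequence of part (1) and of the local theorem
of the hand-in `ArbitraryReduction`.
-/

set_option autoImplicit false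

namespace Pool.Agent.Results.MP_a3c811_ag.OnePrimeSuffices

open NumberField IsDedekindDomain Matrix Polynomial Pool.Agent.Helper51K9.LI.M
  Pool.Agent.Helper51K9.OP.M

/-- the absolute Galois group of the field `K`, with the Krull topology -/
abbrev AbsGal (K : Type) [Field K] : Type := Gal(AlgebraicClosure K/K)

section
variable {K : Type} [Field K]

/-- `g` belongs to the inertia group at the ideal `Q` of the ring of all algebraic integers. -/
def InInertia (Q : Ideal (𝓞 (AlgebraicClosure K))) (g : AbsGal K) : Prop :=
  ∀ x : 𝓞 (AlgebraicClosure K), g • x - x ∈ Q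

/-- `g` acts as `x ↦ x ^ q` modulo `Q`. -/
def FrobeniusAt (Q : Ideal (𝓞 (AlgebraicClosure K))) (q : ℕ) (g : AbsGal K) : Prop :=
  ∀ x : 𝓞 (AlgebraicClosure K), g • x - x ^ q ∈ Q

/-- the elements `g` of the Weil group at `Q` of degree `k ≥ 0`: `g⁻¹` acts as `x ↦ x ^ (q ^ k)` -/
def weil (Q : Ideal (𝓞 (AlgebraicClosure K))) (q : ℕ) : Set (AbsGal K) :=
  {g | ∃ k : ℕ, FrobeniusAt Q (q ^ k) g⁻¹}

/-- `Q` is a maximal ideal of the ring of all algebraic integers which lies above the finite
place `v` of `K`. -/
def LiesAbove [NumberField K] (v : HeightOneSpectrum (𝓞 K))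
    (Q : Ideal (𝓞 (AlgebraicClosure K))) : Prop :=
  Q.IsMaximal ∧ Q.comap (algebraMap (𝓞 K) (𝓞 (AlgebraicClosure K))) = v.asIdeal

/-- the matrix of `g` -/
noncomputable def mat {F : Type} [Field F] {n : ℕ} (ρ : AbsGal K →* GL (Fin n) F) (g : AbsGal K) :
    Matrix (Fin n) (Fin n) F :=
  (ρ g : GL (Fin n) F)

/-- the vectors which are fixed by the inertia group at `Q` -/
def invariants {F : Type} [Field F] {n : ℕ} (ρ : AbsGal K →* GL (Fin n) F)
    (Q : Ideal (𝓞 (AlgebraicClosure K))) : Submodule F (Fin n → F) where
  carrier := {x | ∀ g, InInertia Q g → mat ρ g *ᵥ x = x}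
  add_mem' := by
    intro x y hx hy g hg
    rw [Matrix.mulVec_add, hx g hg, hy g hg]
  zero_mem' := by
    intro g _
    rw [Matrix.mulVec_zero]
  smul_mem' := by
    intro c x hx g hg
    rw [Matrix.mulVec_smul, hx g hg]

/-- `f` is the polynomial `det (1 - g T)` of `g` on the invariants of the inertia group at `Q`: if
`A` is the matrix of `g` with respect to a basis `b` of the invariants then `f = det (1 - A T)`. -/
def IsFactor {F : Type} [Field F] {n : ℕ} (ρ : AbsGal K →* GL (Fin n) F)
    (Q : Ideal (𝓞 (AlgebraicClosure K))) (g : AbsGal K) (f : F[X]) : Prop :=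
  ∃ (m : ℕ) (b : Module.Basis (Fin m) F (invariants ρ Q)) (A : Matrix (Fin m) (Fin m) F),
    (∀ j, mat ρ g *ᵥ (b j : Fin n → F) = ∑ i, A i j • (b i : Fin n → F)) ∧
    f = (1 - (X : F[X]) • A.map C).det

variable [NumberField K] {n : ℕ}

/-- the prime numbers which are not below `v` -/
abbrev Away (v : HeightOneSpectrum (𝓞 K)) : Type :=
  {ℓ : Nat.Primes // ((ℓ : ℕ) : 𝓞 K) ∉ v.asIdeal}

instance (v : HeightOneSpectrum (𝓞 K)) (l : Away v) : Fact (l.1.1).Prime := ⟨l.1.2⟩

/-- the `ℓ`-adic numbers -/
abbrev Coef {v : HeightOneSpectrum (𝓞 K)} (l : Away v) : Type := ℚ_[l.1.1]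

/-- the representations `V ℓ` for the `ℓ` which are not below `v`, as matrices -/
noncomputable def away (V : ∀ (ℓ : ℕ) [Fact ℓ.Prime], AbsGal K →* GL (Fin n) ℚ_[ℓ])
    {v : HeightOneSpectrum (𝓞 K)} (l : Away v) (g : AbsGal K) : Mat (Coef l) n n :=
  mat (V l.1.1) g

/-- the number of elements of the residue field of `v` -/
noncomputable def norm (v : HeightOneSpectrum (𝓞 K)) : ℕ := Ideal.absNorm v.asIdeal

/-- the determinants are of weight `w n` -/
def DeterminantWeight (V : ∀ (ℓ : ℕ) [Fact ℓ.Prime], AbsGal K →* GL (Fin n) ℚ_[ℓ]) (w : ℤ)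
    (v : HeightOneSpectrum (𝓞 K)) (Q : Ideal (𝓞 (AlgebraicClosure K))) : Prop :=
  ∀ (k : ℕ) (g : AbsGal K), FrobeniusAt Q (norm v ^ k) g → ∀ l : Away v,
    (away V l g⁻¹).det ^ 2 = ((norm v : ℚ) ^ (w * n * k) : ℚ)

/-- The weight-monodromy property of the family at `Q`, as in the hand-in `ArbitraryReduction`, for all embeddings `e` of
`ℚ_ℓ` into `ℂ`: let `x` be an eigenvector, with eigenvalue `z`, of the inverse of an element of the Weil group of
degree `k > 0`, and suppose that `(τ - 1) ^ (i + 1)` kills `x` for all the elements `τ` of the inertia group which act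
unipotently; then `‖z‖ ^ 2 = N(v) ^ (k j)` for an integral weight `j ≤ w + i`. -/
def WeightMonodromyAt (V : ∀ (ℓ : ℕ) [Fact ℓ.Prime], AbsGal K →* GL (Fin n) ℚ_[ℓ]) (w : ℤ)
    (v : HeightOneSpectrum (𝓞 K)) (Q : Ideal (𝓞 (AlgebraicClosure K))) : Prop :=
  ∀ (ℓ : ℕ) [Fact ℓ.Prime], (ℓ : 𝓞 K) ∉ v.asIdeal → ∀ (e : ℚ_[ℓ] →+* ℂ)
    (k : ℕ) (g : AbsGal K), 0 < k → FrobeniusAt Q (norm v ^ k) g →
    ∀ (z : ℂ) (x : Fin n → ℂ) (i : ℕ), x ≠ 0 → (mat (V ℓ) g⁻¹).map e *ᵥ x = z • x →
      (∀ τ, InInertia Q τ → IsNilpotent (mat (V ℓ) τ - 1) →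
        (((mat (V ℓ) τ).map e - 1) ^ (i + 1)) *ᵥ x = 0) →
      ∃ j : ℤ, j ≤ w + i ∧ ‖z‖ ^ 2 = ((norm v : ℝ) ^ k) ^ j

/-- The local factors at `v` of every geometric Frobenius element `F` are rational and independent of `ℓ`. -/
def IndependentAt (V : ∀ (ℓ : ℕ) [Fact ℓ.Prime], AbsGal K →* GL (Fin n) ℚ_[ℓ])
    (v : HeightOneSpectrum (𝓞 K)) (Q : Ideal (𝓞 (AlgebraicClosure K))) : Prop :=
  ∀ F, FrobeniusAt Q (norm v) F⁻¹ → ∃ P : ℚ[X], ∀ (ℓ : ℕ) [Fact ℓ.Prime],
    (ℓ : 𝓞 K) ∉ v.asIdeal → ∀ f : ℚ_[ℓ][X],
      IsFactor (V ℓ) Q F f ↔ f = P.map (algebraMap ℚ ℚ_[ℓ])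

end

/-- **Weil group characters: one prime suffices.** -/
theorem result {K : Type} [Field K] [NumberField K] (v : HeightOneSpectrum (𝓞 K))
    (Q : Ideal (𝓞 (AlgebraicClosure K))) (hQ : LiesAbove v Q) {n : ℕ}
    (V : ∀ (ℓ : ℕ) [Fact ℓ.Prime], AbsGal K →* GL (Fin n) ℚ_[ℓ])
    (hV : ∀ (ℓ : ℕ) [Fact ℓ.Prime], Continuous (V ℓ))
    -- the geometric input, with homological = numerical equivalence at one prime `l₀`
    {s : ℕ} (D : Fin s → Type) [∀ w, Ring (D w)] [∀ w, Algebra ℚ (D w)]
    (m k : Fin s → Away v → ℕ) (act : ∀ w l, AbsGal K → Mat (Coef l) (k w l) (k w l))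
    (e a b : ∀ w, D w) (c : ∀ w, AbsGal K → D w)
    (T : ∀ w l, D w → Mat (Coef l) (m w l) (m w l)) (α : ∀ w l, Mat (Coef l) (m w l) (k w l))
    (β : ∀ w l, Mat (Coef l) (k w l) (m w l)) (l₀ : Away v)
    (h : IsModel (L := Coef (v := v)) (weil Q (norm v)) (away V) act e a b c T α β l₀) :
    -- (1) the elements of the Weil group of degree `≥ 0`
    SameCharacters (L := Coef (v := v)) (weil Q (norm v)) (away V) act ∧
    -- (2) the local factor
    ∀ w, DeterminantWeight V w v Q → WeightMonodromyAt V w v Q → IndependentAt V v Q := by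
  have h1 := model_same h
  refine ⟨h1, fun w hdet hwm F hF => ?_⟩
  have hQℓ : ∀ ℓ : ℕ, (ℓ : 𝓞 (AlgebraicClosure K)) ∈ Q ↔ (ℓ : 𝓞 K) ∈ v.asIdeal := by
    intro ℓ
    rw [← hQ.2, Ideal.mem_comap, map_natCast]
  have hcast : ∀ (L : Type) [Field L] [CharZero L] (f : ℚ →+* L), f = Rat.castHom L :=
    fun L _ _ f => Subsingleton.elim _ _
  obtain ⟨l₁⟩ : Nonempty (Away v) := by
    by_contra hne
    have h2 : ∀ p : Nat.Primes, ((p : ℕ) : 𝓞 K) ∈ v.asIdeal := by
      intro p
      by_contra hp
      exact hne ⟨⟨p, hp⟩⟩
    have h3 := v.asIdeal.sub_mem (h2 ⟨3, Nat.prime_three⟩) (h2 ⟨2, Nat.prime_two⟩)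
    have h4 : (((3 : ℕ) : 𝓞 K) - ((2 : ℕ) : 𝓞 K)) = 1 := by norm_num
    exact v.isPrime.ne_top ((Ideal.eq_top_iff_one _).2 (h4 ▸ h3))
  refine Pool.Agent.Helper3K9.EW.local_ Pool.Agent.Helper3K9.EW.finAll V hV w v Q hQ.1 hQ.2
    ?_ ?_ F hF
  · intro k g hg
    have hgw : g⁻¹ ∈ weil Q (norm v) := ⟨k, by rw [inv_inv]; exact hg⟩
    obtain ⟨-, P, hP⟩ := h1 g⁻¹ hgw
    refine ⟨P, ?_, fun ℓ _ hℓ => ?_⟩
    · have h5 := hdet k g hg l₁
      have h6 : (P.coeff 0 : Coef l₁) ^ 2 = (away V l₁ g⁻¹).det ^ 2 := by
        have h7 : (away V l₁ g⁻¹).charpoly.coeff 0 = (P.coeff 0 : Coef l₁) := by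
          rw [hP l₁, Polynomial.coeff_map]
          rfl
        rw [Matrix.det_eq_sign_charpoly_coeff, ← h7, mul_pow, ← pow_mul, mul_comm _ 2, pow_mul]
        norm_num
      rw [h5] at h6
      have h8 : ((P.coeff 0 ^ 2 : ℚ) : Coef l₁) = (((norm v : ℚ) ^ (w * n * k) : ℚ) : Coef l₁) := by
        rw [Rat.cast_pow]
        exact h6
      exact_mod_cast h8
    · have hℓ' : (ℓ : 𝓞 K) ∉ v.asIdeal := fun h' => hℓ ((hQℓ ℓ).2 h')
      have h9 := hP ⟨⟨ℓ, Fact.out⟩, hℓ'⟩
      rw [hcast (Coef (v := v) ⟨⟨ℓ, Fact.out⟩, hℓ'⟩) (algebraMap ℚ _)] at h9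
      exact h9
  · intro ℓ _ hℓ
    exact hwm ℓ fun h' => hℓ ((hQℓ ℓ).2 h')

end Pool.Agent.Results.MP_a3c811_ag.OnePrimeSuffices
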